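import Pool.Agent.Lib.MP_ee37b4_al.Rep54

/-!
# MP_ee37b4_al : reduction of Q1 to hereditarily just infinite groups

Each E-group has a largest normal subgroup of infinite index; it is locally finite and closed in the
pro-`p` topology, and the quotient is a hereditarily just infinite E-group.
-/

namespace Pool.Agent.Results.MP_ee37b4_al.HereditarilyJustInfinite

open Subgroup EGrp54

/-- `R` is the largest normal subgroup of infinite index of `G`, and it is locally finite. -/
structure LargestInfinite (G : Type) [Group G] (R : Subgroup G) : Prop where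
  normal : R.Normal
  infinite : R.index = 0
  largest : ∀ N : Subgroup G, N.Normal → N.index = 0 → N ≤ R
  locallyFinite : ∀ H : Subgroup G, H.FG → H ≤ R → Finite H

/-- `R` is closed in the pro-`p` topology. -/
def Closed (p : ℕ) (G : Type) [Group G] (R : Subgroup G) : Prop :=
  ∀ g : G, g ∉ R → ∃ N : Subgroup G, N.Normal ∧ (∃ n : ℕ, N.index = p ^ n) ∧ R ≤ N ∧ g ∉ N

/-- Nontrivial elements have centralizers of infinite index. -/
def ICC (G : Type) [Group G] : Prop := ∀ x : G, x ≠ 1 → (centralizer {x}).index = 0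

/-- The structure theorem for E-groups, and the reduction of Q1. -/
theorem result (p : ℕ) (hp : p.Prime) :
    (∀ (G : Type) [Group G], EGroup p G → ∃ (Q : Type) (_ : Group Q) (f : G →* Q),
      Function.Surjective f ∧ LargestInfinite G f.ker ∧ Closed p G f.ker ∧ EGroup p Q ∧ HJI Q ∧
        ICC Q ∧ (Unitarizable G → Unitarizable Q)) ∧
    ((∃ (G : Type) (_ : Group G), EGroup p G ∧ Unitarizable G) ↔
      ∃ (G : Type) (_ : Group G), EGroup p G ∧ Unitarizable G ∧ HJI G) := by
  have key : ∀ (G : Type) [Group G], EGroup p G → ∃ (Q : Type) (_ : Group Q) (f : G →* Q),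
      Function.Surjective f ∧ LargestInfinite G f.ker ∧ Closed p G f.ker ∧ EGroup p Q ∧ HJI Q ∧
        ICC Q ∧ (Unitarizable G → Unitarizable Q) := by
    intro G _ h
    obtain ⟨R, hR, h1, h2, h3, h4, h5, h6, h7, h8⟩ := structure_theorem p hp G h
    refine ⟨G ⧸ R, inferInstance, QuotientGroup.mk' R, QuotientGroup.mk'_surjective R, ?_⟩
    rw [QuotientGroup.ker_mk']
    exact ⟨⟨hR, h1, h2, h3⟩, h4, h5, h6, h7, h8⟩
  refine ⟨key, ?_, ?_⟩
  · rintro ⟨G, _, hG, hU⟩
    obtain ⟨Q, hQ, f, _, _, _, h5, h6, _, h8⟩ := key G hG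
    exact ⟨Q, hQ, h5, h8 hU, h6⟩
  · rintro ⟨G, hg, hG, hU, _⟩
    exact ⟨G, hg, hG, hU⟩

end Pool.Agent.Results.MP_ee37b4_al.HereditarilyJustInfinite
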